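import Mathlib

set_option autoImplicit false

open FirstOrder FirstOrder.Language

namespace Pool.Agent.Results.MP_6e5331_al.OrderableNotElem

/-! ### Ordered groups -/

/-- A partial ordering of a group invariant under multiplication on both sides. -/
def IsPartialOrdering (G : Type*) [Group G] (r : G → G → Prop) : Prop :=
  (∀ a, r a a) ∧ (∀ a b, r a b → r b a → a = b) ∧ (∀ a b c, r a b → r b c → r a c) ∧
    ∀ x y a b, r a b → r (x * a * y) (x * b * y)

/-- A linear ordering of a group invariant under multiplication on both sides. -/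
def IsLinearOrdering (G : Type*) [Group G] (r : G → G → Prop) : Prop :=
  IsPartialOrdering G r ∧ ∀ a b, r a b ∨ r b a

/-- A group is orderable if it admits a two-sided invariant linear ordering. -/
def Orderable (G : Type*) [Group G] : Prop := ∃ r : G → G → Prop, IsLinearOrdering G r

/-- A group is pro-orderable if every partial ordering extends to a linear ordering. -/
def ProOrderable (G : Type*) [Group G] : Prop :=
  ∀ r : G → G → Prop, IsPartialOrdering G r →
    ∃ s : G → G → Prop, IsLinearOrdering G s ∧ ∀ a b, r a b → s a b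

/-! ### The first-order language of groups -/

/-- The function symbols of the language of groups: multiplication, inverse and the unit. -/
inductive GroupFunc : ℕ → Type
  | mul : GroupFunc 2
  | inv : GroupFunc 1
  | one : GroupFunc 0

/-- The first-order language of groups (no relation symbols besides equality). -/
def groupLanguage : FirstOrder.Language.{0, 0} where
  Functions := GroupFunc
  Relations := fun _ => Empty

/-- Every group is a structure for the language of groups, with the obvious interpretation. -/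
@[instance_reducible]
def groupStructure (G : Type*) [Group G] : groupLanguage.Structure G where
  funMap := fun {n} f x =>
    match n, f, x with
    | _, GroupFunc.mul, x => x 0 * x 1
    | _, GroupFunc.inv, x => (x 0)⁻¹
    | _, GroupFunc.one, _ => 1
  RelMap := fun {_} r _ => r.elim

/-- The sentence `φ` of the language of groups is true in the group `G`. -/
def Holds (G : Type*) [Group G] (φ : groupLanguage.Sentence) : Prop :=
  let _ := groupStructure G
  G ⊨ φ

/-! ### The semantic form of the separating sentence -/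

/-- The parametrically defined cone. -/
def Pos {K : Type*} [Group K] (c d f : K) : Prop :=
  ∃ b l k : K, (∀ x : K, b * (x⁻¹ * c * x) = (x⁻¹ * c * x) * b) ∧
    b * (k⁻¹ * d * k) = (k⁻¹ * d * k) * b ∧ f * b = l⁻¹ * c * l

/-- The meaning of the separating sentence. -/
def Sem (K : Type*) [Group K] : Prop :=
  ∀ c d : K, (¬ Pos c d 1 ∧ (∀ x y : K, Pos c d x ∧ Pos c d y → Pos c d (x * y)) ∧
      (∀ x y : K, Pos c d x → Pos c d (y⁻¹ * x * y))) →
    ¬ ∃ g h k : K, Pos c d (g * (h⁻¹ * g * h)) ∧ Pos c d (g⁻¹ * (k⁻¹ * g⁻¹ * k))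

theorem sem_of_proOrderable (K : Type*) [Group K] (hK : ProOrderable K) : Sem K := by
  rintro c d ⟨h1, h2, h3⟩ ⟨g, h, k, hg, hg'⟩
  have hr : IsPartialOrdering K (fun a b => a = b ∨ Pos c d (a⁻¹ * b)) := by
    refine ⟨fun a => Or.inl rfl, ?_, ?_, ?_⟩
    · intro a b hab hba
      rcases hab with hab | hab
      · exact hab
      rcases hba with hba | hba
      · exact hba.symm
      have := h2 _ _ ⟨hab, hba⟩
      rw [show a⁻¹ * b * (b⁻¹ * a) = 1 by group] at this
      exact absurd this h1
    · intro a b e hab hbe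
      rcases hab with rfl | hab
      · exact hbe
      rcases hbe with rfl | hbe
      · exact Or.inr hab
      right
      have := h2 _ _ ⟨hab, hbe⟩
      rwa [show a⁻¹ * b * (b⁻¹ * e) = a⁻¹ * e by group] at this
    · intro x y a b hab
      rcases hab with rfl | hab
      · exact Or.inl rfl
      right
      have := h3 _ y hab
      rwa [show y⁻¹ * (a⁻¹ * b) * y = (x * a * y)⁻¹ * (x * b * y) by group] at this
  obtain ⟨s, ⟨⟨-, santi, strans, sinv⟩, stot⟩, hs⟩ := hK _ hr
  have hpos : ∀ w, Pos c d w → s 1 w := fun w hw => hs 1 w (Or.inr (by simpa using hw))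
  have key : ∀ w z : K, Pos c d (w * (z⁻¹ * w * z)) → ¬ s w 1 := by
    intro w z hw hw1
    have e1 := sinv z⁻¹ z w 1 hw1
    have e2 : s (z⁻¹ * w * z) 1 := by simpa using e1
    have e3 := sinv w 1 _ _ e2
    have e4 : s (w * (z⁻¹ * w * z)) w := by simpa using e3
    have e5 := strans _ _ _ e4 hw1
    have e6 := santi _ _ e5 (hpos _ hw)
    rw [e6] at hw
    exact h1 hw
  have hg1 : s 1 g := (stot 1 g).resolve_right (key g h hg)
  have hg2 : s 1 g⁻¹ := (stot 1 g⁻¹).resolve_right (key g⁻¹ k hg')
  have hg3 := sinv g 1 _ _ hg2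
  have hg4 : s g 1 := by simpa using hg3
  exact key g h hg hg4

/-! ### The separating sentence -/

section Syntax

/-- Terms with `n` variables. -/
abbrev Tm (n : ℕ) : Type := groupLanguage.Term (Empty ⊕ Fin n)

/-- Formulas with `n` variables. -/
abbrev Fm (n : ℕ) : Type := groupLanguage.BoundedFormula Empty n

def tmul {n : ℕ} (s t : Tm n) : Tm n := Term.func (l := 2) (GroupFunc.mul : groupLanguage.Functions 2) ![s, t]

def tinv {n : ℕ} (s : Tm n) : Tm n := Term.func (l := 1) (GroupFunc.inv : groupLanguage.Functions 1) ![s]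

def tone {n : ℕ} : Tm n := Term.func (l := 0) (GroupFunc.one : groupLanguage.Functions 0) ![]

/-- Weakening of terms. -/
def up {n : ℕ} (t : Tm n) : Tm (n + 1) := t.relabel (Sum.map id Fin.castSucc)

/-- The most recently bound variable. -/
def lastv (n : ℕ) : Tm (n + 1) := Term.var (Sum.inr (Fin.last n))

/-- `y⁻¹ x y`. -/
def tconj {n : ℕ} (y x : Tm n) : Tm n := tmul (tmul (tinv y) x) y

variable {K : Type*} [Group K]

/-- Value of a term. -/
def val {n : ℕ} (xs : Fin n → K) (t : Tm n) : K :=
  let _ := groupStructure K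
  t.realize (Sum.elim Empty.elim xs)

lemma val_tmul {n : ℕ} (xs : Fin n → K) (s t : Tm n) : val xs (tmul s t) = val xs s * val xs t := rfl

lemma val_tinv {n : ℕ} (xs : Fin n → K) (s : Tm n) : val xs (tinv s) = (val xs s)⁻¹ := rfl

lemma val_tone {n : ℕ} (xs : Fin n → K) : val xs (tone : Tm n) = 1 := rfl

lemma val_tconj {n : ℕ} (xs : Fin n → K) (y x : Tm n) :
    val xs (tconj y x) = (val xs y)⁻¹ * val xs x * val xs y := rfl

lemma val_up {n : ℕ} (xs : Fin n → K) (a : K) (t : Tm n) :
    val (Fin.snoc xs a : Fin (n + 1) → K) (up t) = val xs t := by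
  unfold val up
  let _ := groupStructure K
  rw [Term.realize_relabel]
  congr 1
  ext i
  rcases i with i | i
  · exact i.elim
  · simp

lemma val_lastv {n : ℕ} (xs : Fin n → K) (a : K) :
    val (Fin.snoc xs a : Fin (n + 1) → K) (lastv n) = a := by
  unfold val lastv
  let _ := groupStructure K
  simp

/-- Truth of a formula. -/
def Tr {n : ℕ} (xs : Fin n → K) (φ : Fm n) : Prop :=
  let _ := groupStructure K
  φ.Realize Empty.elim xs

lemma Tr_eq {n : ℕ} (xs : Fin n → K) (s t : Tm n) :
    Tr xs (Term.bdEqual s t) ↔ val xs s = val xs t := by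
  let _ := groupStructure K
  exact BoundedFormula.realize_bdEqual s t

lemma Tr_all {n : ℕ} (xs : Fin n → K) (φ : Fm (n + 1)) :
    Tr xs φ.all ↔ ∀ a : K, Tr (Fin.snoc xs a : Fin (n + 1) → K) φ := by
  let _ := groupStructure K
  exact BoundedFormula.realize_all

lemma Tr_ex {n : ℕ} (xs : Fin n → K) (φ : Fm (n + 1)) :
    Tr xs φ.ex ↔ ∃ a : K, Tr (Fin.snoc xs a : Fin (n + 1) → K) φ := by
  let _ := groupStructure K
  exact BoundedFormula.realize_ex

lemma Tr_imp {n : ℕ} (xs : Fin n → K) (φ ψ : Fm n) :
    Tr xs (φ.imp ψ) ↔ (Tr xs φ → Tr xs ψ) := by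
  let _ := groupStructure K
  exact BoundedFormula.realize_imp

lemma Tr_and {n : ℕ} (xs : Fin n → K) (φ ψ : Fm n) :
    Tr xs (φ ⊓ ψ) ↔ (Tr xs φ ∧ Tr xs ψ) := by
  let _ := groupStructure K
  exact BoundedFormula.realize_inf

lemma Tr_not {n : ℕ} (xs : Fin n → K) (φ : Fm n) :
    Tr xs φ.not ↔ ¬ Tr xs φ := by
  let _ := groupStructure K
  exact BoundedFormula.realize_not

/-- The formula defining the cone. -/
def fPos {n : ℕ} (c d f : Tm n) : Fm n :=
  BoundedFormula.ex (BoundedFormula.ex (BoundedFormula.ex (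
    (BoundedFormula.all (Term.bdEqual
      (tmul (up (up (up (lastv n)))) (tconj (lastv (n + 3)) (up (up (up (up c))))))
      (tmul (tconj (lastv (n + 3)) (up (up (up (up c))))) (up (up (up (lastv n))))))) ⊓
    (Term.bdEqual
      (tmul (up (up (lastv n))) (tconj (lastv (n + 2)) (up (up (up d)))))
      (tmul (tconj (lastv (n + 2)) (up (up (up d)))) (up (up (lastv n))))) ⊓
    (Term.bdEqual
      (tmul (up (up (up f))) (up (up (lastv n))))
      (tconj (up (lastv (n + 1))) (up (up (up c))))))))

lemma Tr_fPos {n : ℕ} (xs : Fin n → K) (c d f : Tm n) :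
    Tr xs (fPos c d f) ↔ Pos (val xs c) (val xs d) (val xs f) := by
  unfold fPos Pos
  simp only [Tr_ex, Tr_and, Tr_all, Tr_eq, val_tmul, val_tconj, val_up, val_lastv, and_assoc]

/-- The separating sentence. -/
def sepSentence : groupLanguage.Sentence :=
  BoundedFormula.all (BoundedFormula.all (BoundedFormula.imp
    ((BoundedFormula.not (fPos (up (lastv 0)) (lastv 1) tone)) ⊓
      ((BoundedFormula.all (BoundedFormula.all (BoundedFormula.imp
        (fPos (up (up (up (lastv 0)))) (up (up (lastv 1))) (up (lastv 2)) ⊓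
          fPos (up (up (up (lastv 0)))) (up (up (lastv 1))) (lastv 3))
        (fPos (up (up (up (lastv 0)))) (up (up (lastv 1))) (tmul (up (lastv 2)) (lastv 3)))))) ⊓
      (BoundedFormula.all (BoundedFormula.all (BoundedFormula.imp
        (fPos (up (up (up (lastv 0)))) (up (up (lastv 1))) (up (lastv 2)))
        (fPos (up (up (up (lastv 0)))) (up (up (lastv 1)))
          (tconj (lastv 3) (up (lastv 2)))))))))
    (BoundedFormula.not (BoundedFormula.ex (BoundedFormula.ex (BoundedFormula.ex
      (fPos (up (up (up (up (lastv 0))))) (up (up (up (lastv 1))))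
        (tmul (up (up (lastv 2))) (tconj (up (lastv 3)) (up (up (lastv 2))))) ⊓
       fPos (up (up (up (up (lastv 0))))) (up (up (up (lastv 1))))
        (tmul (tinv (up (up (lastv 2)))) (tconj (lastv 4) (tinv (up (up (lastv 2)))))))))))))

lemma holds_sep (G : Type*) [Group G] : Holds G sepSentence ↔ Sem G := by
  have h : Holds G sepSentence ↔ Tr (default : Fin 0 → G) sepSentence := by
    let _ := groupStructure G
    unfold Holds Tr Sentence.Realize Formula.Realize
    have e : (default : Empty → G) = Empty.elim := by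
      ext x
      exact x.elim
    rw [e]
  rw [h]
  unfold sepSentence Sem
  simp only [Tr_ex, Tr_and, Tr_all, Tr_imp, Tr_not, Tr_fPos, val_tmul, val_tconj, val_tinv,
    val_tone, val_up, val_lastv]

end Syntax

/-! ### The orderable group -/

/-- Elements of the group: a shift `m`, a sequence `u` of logarithms of scalings and a sequence `a`
of translations, both sequences vanishing far to the left. -/
@[ext]
structure W : Type where
  m : ℤ
  u : ℤ → ℝ
  a : ℤ → ℝ
  hu : ∃ N : ℤ, ∀ n < N, u n = 0
  ha : ∃ N : ℤ, ∀ n < N, a n = 0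

namespace W

noncomputable instance : Mul W where
  mul x y :=
    { m := x.m + y.m
      u := fun n => x.u n + y.u (n - x.m)
      a := fun n => x.a n + Real.exp (x.u n) * y.a (n - x.m)
      hu := by
        obtain ⟨N, hN⟩ := x.hu
        obtain ⟨M, hM⟩ := y.hu
        refine ⟨min N (M + x.m), fun n hn => ?_⟩
        rw [hN n (lt_of_lt_of_le hn (min_le_left _ _)),
          hM (n - x.m) (by have := lt_of_lt_of_le hn (min_le_right _ _); omega), add_zero]
      ha := by
        obtain ⟨N, hN⟩ := x.ha
        obtain ⟨M, hM⟩ := y.ha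
        refine ⟨min N (M + x.m), fun n hn => ?_⟩
        rw [hN n (lt_of_lt_of_le hn (min_le_left _ _)),
          hM (n - x.m) (by have := lt_of_lt_of_le hn (min_le_right _ _); omega), mul_zero,
          add_zero] }

noncomputable instance : One W where
  one := { m := 0, u := fun _ => 0, a := fun _ => 0, hu := ⟨0, fun _ _ => rfl⟩,
           ha := ⟨0, fun _ _ => rfl⟩ }

noncomputable instance : Inv W where
  inv x :=
    { m := -x.m
      u := fun n => -x.u (n + x.m)
      a := fun n => -(Real.exp (-x.u (n + x.m)) * x.a (n + x.m))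
      hu := by
        obtain ⟨N, hN⟩ := x.hu
        refine ⟨N - x.m, fun n hn => ?_⟩
        rw [hN (n + x.m) (by omega), neg_zero]
      ha := by
        obtain ⟨N, hN⟩ := x.ha
        refine ⟨N - x.m, fun n hn => ?_⟩
        rw [hN (n + x.m) (by omega), mul_zero, neg_zero] }

lemma mul_m (x y : W) : (x * y).m = x.m + y.m := rfl
lemma mul_u (x y : W) (n : ℤ) : (x * y).u n = x.u n + y.u (n - x.m) := rfl
lemma mul_a (x y : W) (n : ℤ) : (x * y).a n = x.a n + Real.exp (x.u n) * y.a (n - x.m) := rfl
lemma one_m : (1 : W).m = 0 := rfl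
lemma one_u (n : ℤ) : (1 : W).u n = 0 := rfl
lemma one_a (n : ℤ) : (1 : W).a n = 0 := rfl
lemma inv_m (x : W) : (x⁻¹).m = -x.m := rfl
lemma inv_u (x : W) (n : ℤ) : (x⁻¹).u n = -x.u (n + x.m) := rfl
lemma inv_a (x : W) (n : ℤ) : (x⁻¹).a n = -(Real.exp (-x.u (n + x.m)) * x.a (n + x.m)) := rfl

noncomputable instance : Group W := Group.ofLeftAxioms
  (by
    intro x y z
    apply W.ext
    · simp only [mul_m]
      ring
    · funext n
      simp only [mul_u, mul_m]
      rw [show n - (x.m + y.m) = n - x.m - y.m by ring]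
      ring
    · funext n
      simp only [mul_a, mul_u, mul_m, Real.exp_add]
      rw [show n - (x.m + y.m) = n - x.m - y.m by ring]
      ring)
  (by
    intro x
    apply W.ext
    · simp only [mul_m, one_m]
      ring
    · funext n
      simp only [mul_u, one_u, one_m]
      simp
    · funext n
      simp only [mul_a, one_u, one_m, one_a]
      simp)
  (by
    intro x
    apply W.ext
    · simp only [mul_m, one_m, inv_m]
      ring
    · funext n
      simp only [mul_u, one_u, inv_u, inv_m]
      rw [show n - -x.m = n + x.m by ring]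
      ring
    · funext n
      simp only [mul_a, one_a, inv_u, inv_m, inv_a]
      rw [show n - -x.m = n + x.m by ring]
      ring)

/-! #### The linear ordering -/

/-- The first nonzero value of the sequence exists and is positive. -/
def LexPos (v : ℤ → ℝ) : Prop := ∃ N : ℤ, (∀ n < N, v n = 0) ∧ 0 < v N

lemma lexPos_add {v w : ℤ → ℝ} (hv : LexPos v) (hw : LexPos w) :
    LexPos (fun n => v n + w n) := by
  obtain ⟨N, hN, hN'⟩ := hv
  obtain ⟨M, hM, hM'⟩ := hw
  rcases lt_trichotomy N M with h | h | h
  · exact ⟨N, fun n hn => by simp [hN n hn, hM n (hn.trans h)], by simpa [hM N h] using hN'⟩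
  · subst h
    exact ⟨N, fun n hn => by simp [hN n hn, hM n hn], add_pos hN' hM'⟩
  · exact ⟨M, fun n hn => by simp [hM n hn, hN n (hn.trans h)], by simpa [hN M h] using hM'⟩

lemma lexPos_scale {v : ℤ → ℝ} (hv : LexPos v) (k : ℤ) (p : ℤ → ℝ) (hp : ∀ n, 0 < p n) :
    LexPos (fun n => p n * v (n + k)) := by
  obtain ⟨N, hN, hN'⟩ := hv
  refine ⟨N - k, fun n hn => ?_, ?_⟩
  · simp only
    rw [hN (n + k) (by omega), mul_zero]
  · simp only
    rw [sub_add_cancel]
    exact mul_pos (hp _) hN'

lemma lexPos_trichotomy (v : ℤ → ℝ) (hv : ∃ N : ℤ, ∀ n < N, v n = 0) :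
    v = (fun _ => 0) ∨ LexPos v ∨ LexPos (fun n => - v n) := by
  by_cases h : v = fun _ => 0
  · exact Or.inl h
  right
  obtain ⟨N, hN⟩ := hv
  have hex : ∃ n, v n ≠ 0 := by
    by_contra hcon
    push Not at hcon
    exact h (funext hcon)
  have hbd : ∃ b : ℤ, ∀ z : ℤ, v z ≠ 0 → b ≤ z :=
    ⟨N, fun z hz => by
      by_contra hcon
      exact hz (hN z (by omega))⟩
  obtain ⟨M, hM, hmin⟩ := Int.exists_least_of_bdd hbd hex
  have hz : ∀ n < M, v n = 0 := by
    intro n hn
    by_contra hcon
    have := hmin n hcon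
    omega
  rcases lt_or_gt_of_ne hM with h1 | h1
  · exact Or.inr ⟨M, fun n hn => by simp [hz n hn], by simpa using h1⟩
  · exact Or.inl ⟨M, hz, h1⟩

lemma not_lexPos_zero : ¬ LexPos (fun _ => 0) := by
  rintro ⟨N, -, h⟩
  exact lt_irrefl _ h

/-- The positive cone. -/
def Q (x : W) : Prop :=
  0 < x.m ∨ (x.m = 0 ∧ LexPos x.u) ∨ (x.m = 0 ∧ x.u = (fun _ => 0) ∧ LexPos x.a)

lemma Q_one : ¬ Q 1 := by
  rintro (h | ⟨-, h⟩ | ⟨-, -, h⟩)
  · exact lt_irrefl _ h
  · exact not_lexPos_zero h
  · exact not_lexPos_zero h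

lemma Q_nonneg {x : W} (hx : Q x) : 0 ≤ x.m := by
  rcases hx with h | ⟨h, -⟩ | ⟨h, -⟩ <;> omega

lemma Q_mul {x y : W} (hx : Q x) (hy : Q y) : Q (x * y) := by
  have hx0 := Q_nonneg hx
  have hy0 := Q_nonneg hy
  by_cases hpos : 0 < x.m ∨ 0 < y.m
  · left
    rw [mul_m]
    omega
  · have hxm : x.m = 0 := by omega
    have hym : y.m = 0 := by omega
    have hu : (x * y).u = fun n => x.u n + y.u n := by
      funext n
      rw [mul_u, hxm, sub_zero]
    have ha : (x * y).a = fun n => x.a n + Real.exp (x.u n) * y.a n := by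
      funext n
      rw [mul_a, hxm, sub_zero]
    have hm : (x * y).m = 0 := by rw [mul_m, hxm, hym, add_zero]
    rcases hx with h | ⟨-, h⟩ | ⟨-, h, h'⟩
    · omega
    · rcases hy with g | ⟨-, g⟩ | ⟨-, g, g'⟩
      · omega
      · exact Or.inr (Or.inl ⟨hm, hu ▸ lexPos_add h g⟩)
      · refine Or.inr (Or.inl ⟨hm, ?_⟩)
        rw [hu, g]
        simpa using h
    · rcases hy with g | ⟨-, g⟩ | ⟨-, g, g'⟩
      · omega
      · refine Or.inr (Or.inl ⟨hm, ?_⟩)
        rw [hu, h]
        simpa using g
      · refine Or.inr (Or.inr ⟨hm, ?_, ?_⟩)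
        · rw [hu, h, g]
          simp
        · rw [ha, h]
          simpa using lexPos_add h' g'

lemma Q_total (x : W) : x = 1 ∨ Q x ∨ Q x⁻¹ := by
  rcases lt_trichotomy x.m 0 with h | h | h
  · right; right; left
    rw [inv_m]
    omega
  · rcases lexPos_trichotomy x.u x.hu with g | g | g
    · rcases lexPos_trichotomy x.a x.ha with e | e | e
      · left
        apply W.ext h g e
      · exact Or.inr (Or.inl (Or.inr (Or.inr ⟨h, g, e⟩)))
      · refine Or.inr (Or.inr (Or.inr (Or.inr ⟨by rw [inv_m, h, neg_zero], ?_, ?_⟩)))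
        · funext n
          rw [inv_u, g, neg_zero]
        · have : (x⁻¹).a = fun n => - x.a n := by
            funext n
            rw [inv_a, g, h]
            simp
          rw [this]
          exact e
    · exact Or.inr (Or.inl (Or.inr (Or.inl ⟨h, g⟩)))
    · refine Or.inr (Or.inr (Or.inr (Or.inl ⟨by rw [inv_m, h, neg_zero], ?_⟩)))
      have : (x⁻¹).u = fun n => - x.u n := by
        funext n
        rw [inv_u, h, add_zero]
      rw [this]
      exact g
  · exact Or.inr (Or.inl (Or.inl h))

lemma conj_m (x y : W) : (y⁻¹ * x * y).m = x.m := by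
  rw [mul_m, mul_m, inv_m]
  ring

lemma conj_u (x y : W) (n : ℤ) :
    (y⁻¹ * x * y).u n = -y.u (n + y.m) + x.u (n + y.m) + y.u (n + y.m - x.m) := by
  rw [mul_u, mul_u, mul_m, inv_u, inv_m]
  rw [show n - -y.m = n + y.m by ring, show n - (-y.m + x.m) = n + y.m - x.m by ring]

lemma conj_a (x y : W) (n : ℤ) :
    (y⁻¹ * x * y).a n = Real.exp (-y.u (n + y.m)) * (-y.a (n + y.m) + x.a (n + y.m) +
      Real.exp (x.u (n + y.m)) * y.a (n + y.m - x.m)) := by
  rw [mul_a, mul_a, mul_u, mul_m, inv_u, inv_m, inv_a, Real.exp_add]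
  rw [show n - -y.m = n + y.m by ring, show n - (-y.m + x.m) = n + y.m - x.m by ring]
  ring

lemma Q_conj {x : W} (hx : Q x) (y : W) : Q (y⁻¹ * x * y) := by
  rcases hx with h | ⟨h, g⟩ | ⟨h, g, e⟩
  · left
    rw [conj_m]
    exact h
  · refine Or.inr (Or.inl ⟨by rw [conj_m]; exact h, ?_⟩)
    have : (y⁻¹ * x * y).u = fun n => 1 * x.u (n + y.m) := by
      funext n
      rw [conj_u, h]
      ring_nf
    rw [this]
    exact lexPos_scale g _ _ (fun _ => one_pos)
  · refine Or.inr (Or.inr ⟨by rw [conj_m]; exact h, ?_, ?_⟩)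
    · funext n
      rw [conj_u, h, g]
      ring_nf
    · have : (y⁻¹ * x * y).a = fun n => Real.exp (-y.u (n + y.m)) * x.a (n + y.m) := by
        funext n
        rw [conj_a, h, g]
        simp
      rw [this]
      exact lexPos_scale e _ _ (fun _ => Real.exp_pos _)

theorem orderable : Orderable W := by
  refine ⟨fun a b => a = b ∨ Q (a⁻¹ * b), ⟨⟨fun a => Or.inl rfl, ?_, ?_, ?_⟩, ?_⟩⟩
  · intro a b hab hba
    rcases hab with hab | hab
    · exact hab
    rcases hba with hba | hba
    · exact hba.symm
    have := Q_mul hab hba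
    rw [show a⁻¹ * b * (b⁻¹ * a) = 1 by group] at this
    exact absurd this Q_one
  · intro a b e hab hbe
    rcases hab with rfl | hab
    · exact hbe
    rcases hbe with rfl | hbe
    · exact Or.inr hab
    right
    have := Q_mul hab hbe
    rwa [show a⁻¹ * b * (b⁻¹ * e) = a⁻¹ * e by group] at this
  · intro x y a b hab
    rcases hab with rfl | hab
    · exact Or.inl rfl
    right
    have := Q_conj hab y
    rwa [show y⁻¹ * (a⁻¹ * b) * y = (x * a * y)⁻¹ * (x * b * y) by group] at this
  · intro a b
    rcases Q_total (a⁻¹ * b) with h | h | h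
    · left; left
      rw [inv_mul_eq_one] at h
      exact h
    · exact Or.inl (Or.inr h)
    · right; right
      rwa [mul_inv_rev, inv_inv] at h

/-! #### The parameters and the cone they define -/

/-- The pure translation by the sequence `v`. -/
def E (v : ℤ → ℝ) (hv : ∃ N : ℤ, ∀ n < N, v n = 0) : W :=
  { m := 0, u := fun _ => 0, a := v, hu := ⟨0, fun _ _ => rfl⟩, ha := hv }

/-- The step function. -/
noncomputable def stp (n : ℤ) : ℝ := if 0 ≤ n then 1 else 0

lemma stp_bdd : ∃ N : ℤ, ∀ n < N, stp n = 0 := ⟨0, fun n hn => by unfold stp; rw [if_neg (by omega)]⟩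

/-- The first parameter. -/
noncomputable def c : W := E stp stp_bdd

/-- The second parameter. -/
noncomputable def d : W :=
  { m := 0, u := stp, a := fun _ => 0, hu := stp_bdd, ha := ⟨0, fun _ _ => rfl⟩ }

lemma conj_c (x : W) (n : ℤ) :
    (x⁻¹ * c * x).m = 0 ∧ (x⁻¹ * c * x).u n = 0 ∧
      (x⁻¹ * c * x).a n = Real.exp (-x.u (n + x.m)) * stp (n + x.m) := by
  refine ⟨by rw [conj_m]; rfl, ?_, ?_⟩
  · rw [conj_u]
    simp [c, E]
  · rw [conj_a]
    simp [c, E]

lemma conj_d (x : W) (n : ℤ) :
    (x⁻¹ * d * x).m = 0 ∧ (x⁻¹ * d * x).u n = stp (n + x.m) := by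
  refine ⟨by rw [conj_m]; rfl, ?_⟩
  rw [conj_u]
  simp [d]

lemma comm_a {b z : W} (h : b * z = z * b) (n : ℤ) :
    b.a n + Real.exp (b.u n) * z.a (n - b.m) = z.a n + Real.exp (z.u n) * b.a (n - z.m) :=
  congrFun (congrArg W.a h) n

lemma comm_of {b z : W} (hb : b.m = 0) (hz : z.m = 0)
    (h : ∀ n, b.a n + Real.exp (b.u n) * z.a n = z.a n + Real.exp (z.u n) * b.a n) :
    b * z = z * b := by
  apply W.ext
  · rw [mul_m, mul_m, add_comm]
  · funext n
    rw [mul_u, mul_u, hb, hz, sub_zero, add_comm]
  · funext n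
    rw [mul_a, mul_a, hb, hz, sub_zero, h n]

/-- An element commuting with all conjugates of `c` is a pure translation. -/
lemma pure_of_comm (b : W) (hb : ∀ x : W, b * (x⁻¹ * c * x) = (x⁻¹ * c * x) * b) :
    b.m = 0 ∧ ∀ n, b.u n = 0 := by
  have key : ∀ k n : ℤ, Real.exp (b.u n) * stp (n - b.m - k) = stp (n - k) := by
    intro k n
    have h := hb { m := -k, u := fun _ => 0, a := fun _ => 0, hu := ⟨0, fun _ _ => rfl⟩,
                   ha := ⟨0, fun _ _ => rfl⟩ }
    have h2 := comm_a h n
    rw [(conj_c _ n).2.2, (conj_c _ (n - b.m)).2.2, (conj_c _ n).1, (conj_c _ n).2.1] at h2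
    simp only [neg_zero, Real.exp_zero, one_mul, sub_zero] at h2
    rw [← sub_eq_add_neg, ← sub_eq_add_neg] at h2
    linarith
  have hm : b.m = 0 := by
    have h1 := key 0 0
    have h2 := key 0 (-1)
    have e1 : stp (0 - b.m - 0) ≠ 0 := by
      intro h
      rw [h, mul_zero] at h1
      simp [stp] at h1
    have e2 : stp (-1 - b.m - 0) = 0 := by
      have : stp (-1 - 0) = 0 := by simp [stp]
      rw [this] at h2
      exact (mul_eq_zero.mp h2).resolve_left (Real.exp_pos _).ne'
    unfold stp at e1 e2
    by_contra hne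
    rcases lt_or_gt_of_ne hne with h | h
    · rw [if_pos (by omega)] at e2
      exact one_ne_zero e2
    · rw [if_neg (by omega)] at e1
      exact e1 rfl
  refine ⟨hm, fun n => ?_⟩
  have h1 := key n n
  rw [hm, sub_zero, sub_self] at h1
  simp only [stp, le_refl, if_true, mul_one] at h1
  exact Real.exp_eq_one_iff _ |>.mp h1

/-- A pure translation commuting with a conjugate of `d` vanishes far to the right. -/
lemma fin_of_comm (b k : W) (hm : b.m = 0) (hu : ∀ n, b.u n = 0)
    (h : b * (k⁻¹ * d * k) = (k⁻¹ * d * k) * b) : ∀ n, -k.m ≤ n → b.a n = 0 := by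
  intro n hn
  have h2 := comm_a h n
  rw [(conj_d _ n).1, (conj_d _ n).2, hm, hu, Real.exp_zero, one_mul, sub_zero] at h2
  have h3 : stp (n + k.m) = 1 := by
    unfold stp
    rw [if_pos (by omega)]
  rw [h3] at h2
  have h4 : (Real.exp 1 - 1) * b.a n = 0 := by linarith
  have h5 : Real.exp 1 - 1 ≠ 0 := by
    have := Real.add_one_lt_exp (x := 1) one_ne_zero
    linarith
  exact (mul_eq_zero.mp h4).resolve_left h5

/-- The cone defined by the parameters consists of the eventually positive translations. -/
lemma pos_iff (f : W) :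
    Pos c d f ↔ f.m = 0 ∧ (∀ n, f.u n = 0) ∧ ∃ N : ℤ, ∀ n, N ≤ n → 0 < f.a n := by
  constructor
  · rintro ⟨b, l, k, h1, h2, h3⟩
    obtain ⟨hm, hu⟩ := pure_of_comm b h1
    have hfin := fin_of_comm b k hm hu h2
    have em := congrArg W.m h3
    rw [mul_m, hm, add_zero, (conj_c l 0).1] at em
    have eu : ∀ n, f.u n = 0 := by
      intro n
      have := congrFun (congrArg W.u h3) n
      rwa [mul_u, hu, add_zero, (conj_c l n).2.1] at this
    refine ⟨em, eu, max (-k.m) (-l.m), fun n hn => ?_⟩
    have h4 := congrFun (congrArg W.a h3) n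
    rw [mul_a, eu, em, sub_zero, hfin n (le_trans (le_max_left _ _) hn), mul_zero, add_zero,
      (conj_c l n).2.2] at h4
    rw [h4]
    have h5 : stp (n + l.m) = 1 := by
      unfold stp
      rw [if_pos (by have := le_trans (le_max_right (-k.m) (-l.m)) hn; omega)]
    rw [h5, mul_one]
    exact Real.exp_pos _
  · rintro ⟨hm, hu, N, hN⟩
    obtain ⟨M, hM⟩ := f.ha
    refine ⟨E (fun n => if n < N then - f.a n else 0) ⟨M, fun n hn => by simp [hM n hn]⟩,
      { m := -N, u := fun n => if 0 ≤ n then - Real.log (f.a (n + N)) else 0,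
        a := fun _ => 0,
        hu := ⟨0, fun n hn => by rw [if_neg (by omega)]⟩, ha := ⟨0, fun _ _ => rfl⟩ },
      { m := -N, u := fun _ => 0, a := fun _ => 0, hu := ⟨0, fun _ _ => rfl⟩,
        ha := ⟨0, fun _ _ => rfl⟩ }, ?_, ?_, ?_⟩
    · intro x
      refine comm_of rfl (conj_c x 0).1 (fun n => ?_)
      rw [(conj_c x n).2.1]
      simp only [E, Real.exp_zero, one_mul]
      ring
    · refine comm_of rfl (conj_d _ 0).1 (fun n => ?_)
      rw [(conj_d _ n).2]
      simp only [E, Real.exp_zero, one_mul]
      by_cases hn : n < N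
      · rw [if_pos hn]
        have : stp (n + -N) = 0 := by
          unfold stp
          rw [if_neg (by omega)]
        rw [this, Real.exp_zero]
        ring
      · rw [if_neg hn]
        ring
    · apply W.ext
      · rw [mul_m, hm, (conj_c _ 0).1]
        rfl
      · funext n
        rw [mul_u, hu, (conj_c _ n).2.1]
        simp [E]
      · funext n
        rw [mul_a, hu, hm, (conj_c _ n).2.2]
        simp only [E, sub_zero, Real.exp_zero, one_mul]
        by_cases hn : n < N
        · have : stp (n + -N) = 0 := by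
            unfold stp
            rw [if_neg (by omega)]
          rw [if_pos hn, this]
          simp
        · have : stp (n + -N) = 1 := by
            unfold stp
            rw [if_pos (by omega)]
          rw [if_neg hn, this, if_pos (by omega), neg_neg, neg_add_cancel_right,
            Real.exp_log (hN n (by omega))]
          simp

/-- The alternating sequence. -/
noncomputable def alt (n : ℤ) : ℝ := if 0 ≤ n then (if Even n then 1 else -1) else 0

lemma alt_bdd : ∃ N : ℤ, ∀ n < N, alt n = 0 := ⟨0, fun n hn => by unfold alt; rw [if_neg (by omega)]⟩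

noncomputable def g0 : W := E alt alt_bdd

/-- A shift combined with a scaling by `exp (± 1)`. -/
noncomputable def hh (s : ℝ) : W :=
  { m := -1, u := fun n => if 0 ≤ n then (if Even n then s else -s) else 0, a := fun _ => 0,
    hu := ⟨0, fun n hn => by rw [if_neg (by omega)]⟩, ha := ⟨0, fun _ _ => rfl⟩ }

theorem not_sem : ¬ Sem W := by
  intro hS
  apply hS c d
  · refine ⟨?_, ?_, ?_⟩
    · rw [pos_iff]
      rintro ⟨-, -, N, hN⟩
      exact lt_irrefl _ (hN N le_rfl)
    · intro x y
      rw [pos_iff, pos_iff, pos_iff]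
      rintro ⟨⟨hm, hu, N, hN⟩, hm', hu', N', hN'⟩
      refine ⟨by rw [mul_m, hm, hm', add_zero], fun n => by rw [mul_u, hu, hu', add_zero],
        max N N', fun n hn => ?_⟩
      rw [mul_a, hu, hm, Real.exp_zero, one_mul, sub_zero]
      exact add_pos (hN n (le_trans (le_max_left _ _) hn)) (hN' n (le_trans (le_max_right _ _) hn))
    · intro x y
      rw [pos_iff, pos_iff]
      rintro ⟨hm, hu, N, hN⟩
      refine ⟨by rw [conj_m, hm], fun n => by rw [conj_u, hm, hu]; ring_nf, N - y.m,
        fun n hn => ?_⟩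
      rw [conj_a, hm, hu, Real.exp_zero, one_mul, sub_zero]
      have h1 : -y.a (n + y.m) + x.a (n + y.m) + y.a (n + y.m) = x.a (n + y.m) := by ring
      rw [h1]
      exact mul_pos (Real.exp_pos _) (hN _ (by omega))
  · have hexp : 1 < Real.exp 1 := by
      have := Real.add_one_lt_exp (x := 1) one_ne_zero
      linarith
    have hexp' : Real.exp (-1) < 1 := by
      rw [Real.exp_lt_one_iff]
      norm_num
    have halt : ∀ n : ℤ, 1 ≤ n → alt n = (if Even n then 1 else -1) ∧
        alt (n - 1) = - alt n := by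
      intro n hn
      have h1 : alt n = if Even n then 1 else -1 := by
        unfold alt
        rw [if_pos (by omega)]
      refine ⟨h1, ?_⟩
      rw [h1]
      unfold alt
      rw [if_pos (by omega)]
      by_cases hev : Even n
      · rw [if_pos hev, if_neg (by
          rw [Int.even_sub_one]
          simpa using hev)]
      · rw [if_neg hev, if_pos (by
          rw [Int.even_sub_one]
          exact hev)]
        ring
    have hhu : ∀ (s : ℝ) (n : ℤ), 1 ≤ n → (hh s).u (n - 1) = if Even n then -s else s := by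
      intro s n hn
      unfold hh
      simp only
      rw [if_pos (by omega)]
      by_cases hev : Even n
      · rw [if_pos hev, if_neg (by
          rw [Int.even_sub_one]
          simpa using hev)]
      · rw [if_neg hev, if_pos (by
          rw [Int.even_sub_one]
          exact hev)]
    have conjg : ∀ (s : ℝ) (z : W) (n : ℤ), z.m = 0 → (∀ n, z.u n = 0) →
        ((hh s)⁻¹ * z * hh s).a n = Real.exp (-(hh s).u (n - 1)) * z.a (n - 1) := by
      intro s z n hz hz'
      rw [conj_a, hz, hz', Real.exp_zero]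
      simp only [hh, mul_zero, add_zero, neg_zero, zero_add]
      rfl
    have hgm : g0.m = 0 := rfl
    have hgu : ∀ n, g0.u n = 0 := fun n => rfl
    have hga : ∀ n, g0.a n = alt n := fun n => rfl
    have hgm' : g0⁻¹.m = 0 := by rw [inv_m, hgm, neg_zero]
    have hgu' : ∀ n, g0⁻¹.u n = 0 := fun n => by rw [inv_u, hgu, neg_zero]
    have hga' : ∀ n, g0⁻¹.a n = - alt n := fun n => by
      rw [inv_a, hgu, hgm, neg_zero, Real.exp_zero, one_mul, add_zero, hga]
    refine ⟨g0, hh (-1), hh 1, ?_, ?_⟩
    · rw [pos_iff]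
      refine ⟨by rw [mul_m, conj_m, hgm, add_zero], fun n => by
        rw [mul_u, conj_u, hgu, hgu, hgm]; ring_nf, 1, fun n hn => ?_⟩
      obtain ⟨h1, h2⟩ := halt n hn
      rw [mul_a, hgu, Real.exp_zero, one_mul, hgm, sub_zero, conjg _ _ _ hgm hgu, hhu _ _ hn,
        hga, hga, h2, h1]
      by_cases hev : Even n
      · rw [if_pos hev, if_pos hev]
        simp only [neg_neg]
        linarith
      · rw [if_neg hev, if_neg hev]
        simp only [neg_neg]
        linarith
    · rw [pos_iff]
      refine ⟨by rw [mul_m, conj_m, hgm', add_zero], fun n => by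
        rw [mul_u, conj_u, hgu', hgu', hgm']; ring_nf, 1, fun n hn => ?_⟩
      obtain ⟨h1, h2⟩ := halt n hn
      rw [mul_a, hgu', Real.exp_zero, one_mul, hgm', sub_zero, conjg _ _ _ hgm' hgu', hhu _ _ hn,
        hga', hga', h2, h1]
      by_cases hev : Even n
      · rw [if_pos hev, if_pos hev]
        simp only [neg_neg]
        linarith
      · rw [if_neg hev, if_neg hev]
        simp only [neg_neg]
        linarith

end W

/-- There are an orderable group `G` and a first-order sentence in the language of groups that is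
true in every pro-orderable group but false in `G`. -/
theorem result.{u} :
    ∃ (G : Type) (_ : Group G) (φ : groupLanguage.Sentence),
      Orderable G ∧ ¬ Holds G φ ∧
        ∀ (K : Type u) [Group K], ProOrderable K → Holds K φ :=
  ⟨W, inferInstance, sepSentence, W.orderable, fun h => W.not_sem ((holds_sep W).mp h),
    fun K _ hK => (holds_sep K).mpr (sem_of_proOrderable K hK)⟩

end Pool.Agent.Results.MP_6e5331_al.OrderableNotElem
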